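import Pool.Agent.Q187.ZD.Quot

/-!
# Motivic double shuffle: completeness in infinitely many weights

`E` is the algebra of formal multiple zeta values (words modulo the regularized double shuffle
relations), `H` the algebra of motivic multiple zeta values, `π : E → H`. If in one weight `k` some
motivic relation does not follow from the double shuffle relations, then the dimension of `E_N` is
at least `d_N + d_(N-k) + d_(N-2k) + ...` for all `N`. So `𝔤^𝔪 = 𝔡𝔪₀` as soon as the relations are
complete in infinitely many weights, or `liminf dim E_N / d_N = 1`.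
-/

set_option autoImplicit false

open Module

namespace Pool.Agent.Results.MP_a57f33_nt.InfinitelyManyWeights

open Pool.Agent.Q187.ZD (IsZagier IsFormal Complete)

theorem result (d : ℕ → ℕ) (hd : IsZagier d) (E H : Type) [CommRing E] [Algebra ℚ E]
    [CommRing H] [Algebra ℚ H] (gr : ℕ → Submodule ℚ E) (π : E →ₐ[ℚ] H)
    (hf : IsFormal d gr π) :
    (∀ k, ¬ Complete gr π k → ∀ m N, m * k ≤ N →
      ∑ i ∈ Finset.range (m + 1), d (N - i * k) ≤ finrank ℚ (gr N)) ∧
    ((∀ k, Complete gr π k) ↔ {N | Complete gr π N}.Infinite) ∧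
    ((∀ k, Complete gr π k) ↔
      ∀ ε : ℝ, 0 < ε → ∀ N₀, ∃ N ≥ N₀, (finrank ℚ (gr N) : ℝ) ≤ (1 + ε) * d N) ∧
    (∀ k, ¬ Complete gr π k → ∀ N, k + 2 ≤ N →
      (1 + (2 ^ k : ℝ)⁻¹) * d N ≤ finrank ℚ (gr N)) :=
  ⟨fun _ hk m _ hN => Pool.Agent.Q187.ZD.extra_sum hf hk m hN,
    Pool.Agent.Q187.ZD.formal_infinite hf hd, Pool.Agent.Q187.ZD.formal_liminf hf hd,
    fun _ hk _ hN => Pool.Agent.Q187.ZD.formal_share hf hd hk hN⟩

end Pool.Agent.Results.MP_a57f33_nt.InfinitelyManyWeights
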