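import Pool.Agent.H249.MZ.DM

/-! MP_a57f33_nt: the motivic Lie algebra and the double shuffle Lie algebra: equality and absence of
relations in two consecutive weights give equality in all smaller weights. -/

set_option autoImplicit false

namespace Pool.Agent.Results.MP_a57f33_nt.TwoConsecutiveWeights

open Pool.Agent.H777R4.DM Pool.Agent.H249.MZ
open Pool.Agent.H249.Coh (CupZero brk)

variable {L : Type} [LieRing L] [LieAlgebra ℚ L]

/-- The properties of the motivic Lie algebra `g` in the double shuffle Lie algebra `L` that are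
used: `g` is freely generated by elements `σ i` of depth one and weight `i`, one for each odd
`i ≥ 3`. -/
structure IsMotivic (ι : L →ₗ[ℚ] A) (σ : ℕ → L) (g : LieSubalgebra ℚ L) : Prop where
  weight : ∀ i, Odd i → 3 ≤ i → σ i ∈ wt ι i
  depth : ∀ i, Odd i → 3 ≤ i → co (ι (σ i)) (List.replicate (i - 1) 0 ++ [1]) ≠ 0
  gen : g = LieSubalgebra.lieSpan ℚ L {a | ∃ i, Odd i ∧ 3 ≤ i ∧ a = σ i}
  free : Function.Injective (FreeLieAlgebra.lift ℚ fun i : {i : ℕ // Odd i ∧ 3 ≤ i} => σ i)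

/-- `I` is the set of the odd numbers `≥ 3`. -/
def I : Set ℕ := {i | Odd i ∧ 3 ≤ i}

omit [LieRing L] [LieAlgebra ℚ L] in
lemma image_eq (σ : ℕ → L) : σ '' I = {a | ∃ i, Odd i ∧ 3 ≤ i ∧ a = σ i} := by
  ext a
  constructor
  · rintro ⟨i, ⟨h1, h2⟩, rfl⟩
    exact ⟨i, h1, h2, rfl⟩
  · rintro ⟨i, h1, h2, rfl⟩
    exact ⟨i, ⟨h1, h2⟩, rfl⟩

variable {ι : L →ₗ[ℚ] A} {σ : ℕ → L} {g : LieSubalgebra ℚ L}

lemma gen_eq (hg : IsMotivic ι σ g) : g = LieSubalgebra.lieSpan ℚ L (σ '' I) := by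
  rw [hg.gen, image_eq]

lemma not_brk (hι : IsSub ι) (hg : IsMotivic ι σ g) : ∀ i ∈ I, σ i ∉ brk ℚ L := by
  intro i hi h
  have := der_depth hι h _ (hg.depth i hi.1 hi.2)
  rw [List.count_append, List.count_replicate] at this
  simp at this

lemma wt_le_top (hι : IsSub ι) (h : ∀ k, wt ι k ≤ g.toSubmodule) : g = ⊤ := by
  rw [eq_top_iff]
  intro a _
  obtain ⟨S, hS⟩ := (isGrading hι).sum a
  rw [hS]
  exact sum_mem fun N _ => h N ((isGrading hι).mem N a)

lemma brk_zero {α : L →ₗ[ℚ] ℚ} (h : ∀ a b : L, α ⁅a, b⁆ = 0) : ∀ a ∈ brk ℚ L, α a = 0 := by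
  intro a ha
  induction ha using Submodule.span_induction with
  | mem c hc =>
    obtain ⟨a, b, rfl⟩ := hc
    exact h a b
  | zero => rw [map_zero]
  | add a b _ _ ha hb => rw [map_add, ha, hb, add_zero]
  | smul c a _ ha => rw [map_smul, ha, smul_zero]

lemma h2_of_top (hg : IsMotivic ι σ g) (h : g = ⊤) (N : ℕ) : CupZero (wt ι) N := by
  intro _ _ α β _ _ _ hα hβ
  have hsur : Function.Surjective
      (FreeLieAlgebra.lift ℚ fun i : {i : ℕ // Odd i ∧ 3 ≤ i} => σ i) := by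
    rw [← LieHom.range_eq_top, eq_top_iff, ← h, hg.gen]
    refine LieSubalgebra.lieSpan_le.2 ?_
    rintro _ ⟨i, h1, h2, rfl⟩
    exact ⟨FreeLieAlgebra.of ℚ ⟨i, h1, h2⟩, FreeLieAlgebra.lift_of_apply _ _⟩
  exact Pool.Agent.H249.Coh.free_h2 (LieEquiv.ofBijective _ ⟨hg.free, hsur⟩) _
    (Pool.Agent.H249.Coh.cup_cocycle (brk_zero hα) (brk_zero hβ))

/-- Let `L` be the double shuffle Lie algebra with the Ihara bracket, or a graded Lie subalgebra of
it, and let `g` be the motivic Lie algebra, freely generated by `σ 3, σ 5, σ 7, …`. `CupZero N` says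
that the cup product `H¹(L) × H¹(L) → H²(L)` vanishes in weight `N`. -/
theorem result (L : Type) [LieRing L] [LieAlgebra ℚ L] (ι : L →ₗ[ℚ] A)
    (hι : IsSub ι) (σ : ℕ → L) (g : LieSubalgebra ℚ L) (hg : IsMotivic ι σ g) :
    -- (1) brackets of `σ i` with new generators are new
    (∀ N, CupZero (wt ι) N → ∀ (S : Finset ℕ) (x : ℕ → L),
      (∀ i ∈ S, Odd i ∧ 3 ≤ i ∧ i ≤ N ∧ x i ∈ wt ι (N - i)) → ∑ i ∈ S, ⁅x i, σ i⁆ ∈ g →
      ∀ i ∈ S, x i ∈ g.toSubmodule ⊔ brk ℚ L) ∧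
    -- (2) two consecutive weights decide all smaller ones
    (∀ N, CupZero (wt ι) N → CupZero (wt ι) (N + 1) → wt ι N ≤ g.toSubmodule →
      wt ι (N + 1) ≤ g.toSubmodule → ∀ k, k + 2 ≤ N → wt ι k ≤ g.toSubmodule) ∧
    -- (3) the criterion
    (g = ⊤ ↔ {N | CupZero (wt ι) N ∧ CupZero (wt ι) (N + 1) ∧ wt ι N ≤ g.toSubmodule ∧
      wt ι (N + 1) ≤ g.toSubmodule}.Infinite) ∧
    -- (4) the consequences of a first failure
    (∀ k, ¬ wt ι k ≤ g.toSubmodule → (∀ j < k, wt ι j ≤ g.toSubmodule) →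
      ∀ i, Odd i → 3 ≤ i → ¬ wt ι (k + i) ≤ g.toSubmodule ∨ ¬ CupZero (wt ι) (k + i)) ∧
    -- (5) finite codimension
    (FiniteDimensional ℚ (L ⧸ g.toSubmodule) → {N | ¬ CupZero (wt ι) N}.Finite → g = ⊤) := by
  have hG := isGrading hι
  have hσ : ∀ i ∈ I, σ i ∈ wt ι i := fun i hi => hg.weight i hi.1 hi.2
  have hd := not_brk hι hg
  have hge := gen_eq hg
  have h1 : ∀ N, CupZero (wt ι) N → ∀ (S : Finset ℕ) (x : ℕ → L),
      (∀ i ∈ S, Odd i ∧ 3 ≤ i ∧ i ≤ N ∧ x i ∈ wt ι (N - i)) → ∑ i ∈ S, ⁅x i, σ i⁆ ∈ g →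
      ∀ i ∈ S, x i ∈ Submodule.span ℚ (σ '' I) ⊔ brk ℚ L := by
    intro N hN S x hx h
    rw [hge] at h
    exact Pool.Agent.H249.Coh.new_gens hG hσ hd hN S
      (fun i hi => ⟨⟨(hx i hi).1, (hx i hi).2.1⟩, (hx i hi).2.2.1⟩) x
      (fun i hi => (hx i hi).2.2.2) h
  have h2 : ∀ N, CupZero (wt ι) N → CupZero (wt ι) (N + 1) → wt ι N ≤ g.toSubmodule →
      wt ι (N + 1) ≤ g.toSubmodule → ∀ k, k + 2 ≤ N → wt ι k ≤ g.toSubmodule := by
    intro N a b c d
    rw [hge] at c d ⊢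
    exact Pool.Agent.H249.Coh.two_weights hG hσ hd (fun i h3 h4 => ⟨h3, h4⟩) a b c d
  have h5 : ∀ k, ¬ wt ι k ≤ g.toSubmodule → (∀ j < k, wt ι j ≤ g.toSubmodule) →
      ∀ i, Odd i → 3 ≤ i → ¬ wt ι (k + i) ≤ g.toSubmodule ∨ ¬ CupZero (wt ι) (k + i) := by
    intro k hk hj i hi hi3
    by_contra hcon
    push Not at hcon
    obtain ⟨h3, h4⟩ := hcon
    refine hk ?_
    have key := Pool.Agent.H249.Coh.gr_mono_gen hG hσ (k := k) (by
      intro j hjk
      rw [← hge]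
      exact hj j hjk) (by
      intro x hx
      refine h1 (k + i) h4 {i} (fun _ => x) ?_ ?_ i (Finset.mem_singleton_self i)
      · intro j hj
        rw [Finset.mem_singleton] at hj
        subst hj
        refine ⟨hi, hi3, by omega, ?_⟩
        rw [Nat.add_sub_cancel]
        exact hx
      · rw [Finset.sum_singleton]
        exact h3 (hG.mul k i x hx _ (hσ i ⟨hi, hi3⟩)))
    rw [← hge] at key
    exact key
  refine ⟨?_, h2, ⟨?_, ?_⟩, h5, ?_⟩
  · intro N hN S x hx h i hi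
    have hle : Submodule.span ℚ (σ '' I) ≤ g.toSubmodule := by
      rw [hge]
      exact LieSubalgebra.submodule_span_le_lieSpan
    exact sup_le_sup_right hle _ (h1 N hN S x hx h i hi)
  · intro h
    have : {N | CupZero (wt ι) N ∧ CupZero (wt ι) (N + 1) ∧ wt ι N ≤ g.toSubmodule ∧
        wt ι (N + 1) ≤ g.toSubmodule} = Set.univ := by
      rw [Set.eq_univ_iff_forall]
      intro N
      refine ⟨h2_of_top hg h N, h2_of_top hg h (N + 1), ?_, ?_⟩ <;>
      · rw [h]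
        intro a _
        exact LieSubalgebra.mem_top a
    rw [this]
    exact Set.infinite_univ
  · intro h
    refine wt_le_top hι fun k => ?_
    obtain ⟨N, hN, hkN⟩ := h.exists_gt (k + 1)
    exact h2 N hN.1 hN.2.1 hN.2.2.1 hN.2.2.2 k (by omega)
  · intro hfd hfin
    classical
    by_contra hne
    have hex : ∃ k, ¬ wt ι k ≤ g.toSubmodule := by
      by_contra hcon
      push Not at hcon
      exact hne (wt_le_top hι hcon)
    have hB : {N | ¬ wt ι N ≤ g.toSubmodule}.Finite := by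
      subst hge
      exact Pool.Agent.H249.Coh.finite_weights hG hσ
    obtain ⟨M, hM⟩ := (hB.union hfin).bddAbove
    have hk := Nat.find_spec hex
    have := h5 (Nat.find hex) hk (fun j hj => not_not.1 (Nat.find_min hex hj)) (2 * M + 3)
      ⟨M + 1, by ring⟩ (by omega)
    have hle := hM (show Nat.find hex + (2 * M + 3) ∈
      {N | ¬ wt ι N ≤ g.toSubmodule} ∪ {N | ¬ CupZero (wt ι) N} from this)
    omega

end Pool.Agent.Results.MP_a57f33_nt.TwoConsecutiveWeights
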